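import Pool.Agent.W705.JV.Gap

set_option autoImplicit false

namespace Pool.Agent.W705.JV

open Finset LaurentPolynomial Pool.Agent.H891R2.Jones Pool.Agent.W639.RB Pool.Agent.W705.JR

variable {m : ℕ}

theorem card_vletter (m : ℕ) : Fintype.card (VLetter m) = 3 * (m - 1) := by 
  simp only [Fintype.card_sum, Fintype.card_prod, Fintype.card_bool, Fintype.card_fin]
  ring

theorem weightsV (hm : 3 ≤ m) (p : VLetter m → ℝ) (hp : ∀ x, 0 < p x) (hs : ∑ x, p x = 1) : 
    ∃ C r : ℝ, 0 < r ∧ r < 1 ∧ ∀ (O : Outer m) (z : ℂ) (k : ℕ), probV p O k z ≤ C * r ^ k := by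
  obtain ⟨C, r, hC, hr0, hr1, h⟩ := mainV hm p hp hs
  refine ⟨C, max r (1/2), by positivity, max_lt hr1 (by norm_num), fun O z k => (h O z k).trans ?_⟩
  exact mul_le_mul_of_nonneg_left (pow_le_pow_left₀ hr0 (le_max_left _ _) k) hC

open Classical in
theorem countV (hm : 3 ≤ m) : ∃ C r : ℝ, 1 ≤ C ∧ 0 < r ∧ r < 1 ∧ 
    ∀ (O : Outer m) (f : ℤ[T;T⁻¹]) (n : ℕ), 
      ((univ.filter (fun w : Fin n → VLetter m => (diagramV O w).fPoly = f)).card : ℝ) ≤ 
        C * r ^ n * ((3 * (m - 1) : ℕ) : ℝ) ^ n := by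
  set D : ℕ := 3 * (m - 1) with hD
  have hDpos : (0:ℝ) < D := by
    have : 0 < D := by omega
    exact_mod_cast this
  obtain ⟨C, r, hC, hr0, hr1, h⟩ := mainV hm (fun _ : VLetter m => (1:ℝ) / D) (fun _ => by positivity) (by
    rw [Finset.sum_const, Finset.card_univ, card_vletter, nsmul_eq_mul, ← hD]
    field_simp)
  refine ⟨C + 1, max r (1/2), by linarith, by positivity, max_lt hr1 (by norm_num), 
    fun O f n => ?_⟩
  have h1 := h O (ev 3 le_rfl f) n
  have h2 : ((univ.filter (fun w : Fin n → VLetter m => (diagramV O w).fPoly = f)).card : ℝ) * (1 / D) ^ n ≤ 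
      probV (fun _ : VLetter m => (1:ℝ) / D) O n (ev 3 le_rfl f) := by
    unfold probV
    rw [← nsmul_eq_mul, ← Finset.sum_const, Finset.sum_filter]
    refine Finset.sum_le_sum fun w _ => ?_
    by_cases hw : (diagramV O w).fPoly = f
    · have hw' : (drawV O (List.ofFn w)).close.fPoly = f := hw
      rw [if_pos hw, if_pos (by rw [hw'])]
      rw [Finset.prod_const, Finset.card_univ, Fintype.card_fin]
    · rw [if_neg hw]
      split_ifs
      · exact Finset.prod_nonneg fun _ _ => by positivity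
      · exact le_rfl
  have h3 : r ^ n ≤ (max r (1/2)) ^ n := pow_le_pow_left₀ hr0 (le_max_left _ _) n
  have h4 : C * r ^ n ≤ (C + 1) * (max r (1/2)) ^ n := by
    have h5 : 0 ≤ (max r (1/2)) ^ n := by positivity
    nlinarith [mul_le_mul_of_nonneg_left h3 hC]
  have h5 : (0:ℝ) < (D:ℝ) ^ n := by positivity
  have h6 := (h2.trans h1).trans h4
  rw [div_pow, one_pow, mul_one_div, div_le_iff₀ h5] at h6
  exact h6

theorem permV_append {n k : ℕ} (w : Fin n → VLetter m) (s : Fin k → VLetter m) : 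
    permV (Fin.append w s) = permV w * permV s := by
  have h : ∀ {l : ℕ} (u : Fin l → VLetter m), permV u = ((List.ofFn u).map trV).prod := by
    intro l u
    unfold permV
    rw [List.map_ofFn]
    rfl
  rw [h, h, h, List.ofFn_fin_append, List.map_append, List.prod_append]

theorem sign_permV {n : ℕ} (w : Fin n → VLetter m) : Equiv.Perm.sign (permV w) = (-1) ^ n := by
  have h : permV w = ((List.ofFn w).map trV).prod := by
    unfold permV
    rw [List.map_ofFn]
    rfl
  rw [h, map_list_prod, List.map_map]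
  have : (Equiv.Perm.sign ∘ trV : VLetter m → ℤˣ) = fun _ => -1 := by
    funext x
    rcases x with x | i
    · exact sign_tr x
    · exact sign_tr (true, i)
  rw [this, List.map_const', List.prod_replicate, List.length_ofFn]

open Classical in
theorem many_knotsV (hm : 2 ≤ m) : ∃ l0 : ℕ, ∀ n, l0 ≤ n → n % 2 = (m - 1) % 2 → 
    (3 * (m - 1)) ^ n ≤ (3 * (m - 1)) ^ l0 * (univ.filter (fun w : Fin n → VLetter m => IsKnotV w)).card := by
  obtain ⟨l0, hl0⟩ := exists_len hm
  refine ⟨l0, fun n hn hpar => ?_⟩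
  obtain ⟨k, rfl⟩ : ∃ k, n = k + l0 := ⟨n - l0, by omega⟩
  have h1 : ∀ w : Fin k → VLetter m, ∃ s : Fin l0 → VLetter m, permV s = (permV w)⁻¹ * finRotate m := by
    intro w
    have h0 : ∃ s : Fin l0 → Letter m, perm s = (permV w)⁻¹ * finRotate m := by
      apply hl0
      rw [map_mul, map_inv, sign_permV]
      obtain ⟨t, rfl⟩ : ∃ t, m = t + 1 := ⟨m - 1, by omega⟩
      rw [sign_finRotate]
      have h2 : (k + l0) % 2 = t % 2 := by simpa using hpar
      rw [Int.units_inv_eq_self, Nat.add_sub_cancel, ← pow_add]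
      have h3 : ∃ e, k + t + 0 = l0 + 2 * e ∨ l0 = k + t + 2 * e := by
        rcases le_total l0 (k + t) with h | h
        · exact ⟨(k + t - l0) / 2, Or.inl (by omega)⟩
        · exact ⟨(l0 - (k + t)) / 2, Or.inr (by omega)⟩
      obtain ⟨e, h3 | h3⟩ := h3
      · rw [add_zero] at h3
        rw [h3, pow_add, pow_mul (-1 : ℤˣ) 2 e]; simp
      · rw [h3, pow_add (-1 : ℤˣ) (k + t) (2 * e), pow_mul (-1 : ℤˣ) 2 e]; simp
    obtain ⟨s, hs⟩ := h0
    exact ⟨fun i => .inl (s i), hs⟩
  choose s hs using h1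
  have h2 : (univ : Finset (Fin k → VLetter m)).card ≤ 
      (univ.filter (fun w : Fin (k + l0) → VLetter m => IsKnotV w)).card := by
    apply Finset.card_le_card_of_injOn (fun w => Fin.append w (s w))
    · intro w _
      rw [Finset.mem_coe, Finset.mem_filter]
      refine ⟨Finset.mem_univ _, fun i j => ?_⟩
      rw [permV_append, hs, mul_inv_cancel_left]
      exact isKnot_rotate hm i j
    · intro w _ w' _ h
      funext i
      have := congrFun h (Fin.castAdd l0 i)
      simpa [Fin.append_left] using this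
  rw [Finset.card_univ, Fintype.card_fun, Fintype.card_fin] at h2
  rw [card_vletter] at h2
  calc (3 * (m - 1)) ^ (k + l0) = (3 * (m - 1)) ^ l0 * (3 * (m - 1)) ^ k := by rw [pow_add]; ring
    _ ≤ _ := Nat.mul_le_mul_left _ h2

open Classical in
theorem knotsV (hm : 3 ≤ m) {C r : ℝ} (hC : 0 ≤ C) (hr : 0 < r)
    (h : ∀ (O : Outer m) (f : ℤ[T;T⁻¹]) (n : ℕ), 
      ((univ.filter (fun w : Fin n → VLetter m => (diagramV O w).fPoly = f)).card : ℝ) ≤ 
        C * r ^ n * ((3 * (m - 1) : ℕ) : ℝ) ^ n) : 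
    ∃ (C' : ℝ) (l0 : ℕ), ∀ (O : Outer m) (f : ℤ[T;T⁻¹]) (n : ℕ), l0 ≤ n → n % 2 = (m - 1) % 2 → 
      ((univ.filter (fun w : Fin n → VLetter m => IsKnotV w ∧ (diagramV O w).fPoly = f)).card : ℝ) ≤ 
        C' * r ^ n * (univ.filter (fun w : Fin n → VLetter m => IsKnotV w)).card := by
  obtain ⟨l0, hl0⟩ := many_knotsV (m := m) (by omega)
  set D : ℕ := 3 * (m - 1) with hD
  refine ⟨C * (D:ℝ) ^ l0, l0, fun O f n hn hpar => ?_⟩
  have h1 := h O f n
  have h2 : ((univ.filter (fun w : Fin n → VLetter m => IsKnotV w ∧ (diagramV O w).fPoly = f)).card : ℝ) ≤ 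
      ((univ.filter (fun w : Fin n → VLetter m => (diagramV O w).fPoly = f)).card : ℝ) := by
    norm_cast
    refine Finset.card_le_card fun w hw => ?_
    rw [Finset.mem_filter] at hw ⊢
    exact ⟨hw.1, hw.2.2⟩
  have h3 : ((D:ℝ)) ^ n ≤ (D:ℝ) ^ l0 * ((univ.filter (fun w : Fin n → VLetter m => IsKnotV w)).card : ℝ) := by
    exact_mod_cast hl0 n hn hpar
  have h4 : 0 ≤ C * r ^ n := by positivity
  calc _ ≤ C * r ^ n * (D:ℝ) ^ n := h2.trans h1
    _ ≤ C * r ^ n * ((D:ℝ) ^ l0 * ((univ.filter (fun w : Fin n → VLetter m => IsKnotV w)).card : ℝ)) := 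
      mul_le_mul_of_nonneg_left h3 h4
    _ = _ := by ring

end Pool.Agent.W705.JV
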