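import Pool.Agent.W639.RB.Defs

/-!
# Virtual braid words drawn in a box of a (virtual) link diagram

`Outer m` (starting library `Pool.Agent.H891R2.Jones.Diagram`) is the part of an oriented link diagram
outside a box through which `m` strands run; the arcs only say which marked points are joined, so these
are parts of virtual link diagrams, that is, of diagrams on closed surfaces up to stabilisation.
`Outer.push` draws one crossing at the lower side of the open part of the box and `Outer.close` fills the
rest of the box with vertical strands.
-/

set_option autoImplicit false

namespace Pool.Agent.W705.JV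

open Pool.Agent.H891R2.Jones Pool.Agent.W639.RB

/-- the letters of the virtual braid group on `m` strands, `0 ≤ i < m - 1`: `inl (true, i)` is `σ_i`,
`inl (false, i)` is `σ_i⁻¹`, and `inr i` is the virtual crossing `v_i` of the strands at the places `i` and
`i + 1` -/
abbrev VLetter (m : ℕ) : Type := Letter m ⊕ Fin (m - 1)

/-- draw a virtual crossing between the strands at the places `i` and `i + 1` at the lower side of the
open part of the box: the two strands change their places -/
def virt {m : ℕ} (O : Outer m) (i : Fin (m - 1)) : Outer m where
  P := O.P
  arcs := O.arcs
  crossings := O.crossings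
  lower := O.lower ∘ Equiv.swap (⟨i, by omega⟩ : Fin m) ⟨i + 1, by omega⟩
  upper := O.upper
  up := O.up ∘ Equiv.swap (⟨i, by omega⟩ : Fin m) ⟨i + 1, by omega⟩

/-- draw one letter in the box -/
def pushV {m : ℕ} (O : Outer m) : VLetter m → Outer m
  | .inl x => O.push x.1 x.2
  | .inr i => virt O i

/-- draw a word in the box -/
def drawV {m : ℕ} (O : Outer m) (w : List (VLetter m)) : Outer m := w.foldl pushV O

/-- the link diagram obtained by drawing the virtual braid word `w` in the box of `O` -/
def diagramV {m n : ℕ} (O : Outer m) (w : Fin n → VLetter m) : Diagram (drawV O (List.ofFn w)).P :=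
  (drawV O (List.ofFn w)).close

/-- the transposition of a letter -/
def trV {m : ℕ} : VLetter m → Equiv.Perm (Fin m)
  | .inl x => Equiv.swap (⟨x.2, by omega⟩ : Fin m) ⟨x.2 + 1, by omega⟩
  | .inr i => Equiv.swap (⟨i, by omega⟩ : Fin m) ⟨i + 1, by omega⟩

/-- the permutation of a virtual braid word: the product of the transpositions of its letters -/
def permV {m n : ℕ} (w : Fin n → VLetter m) : Equiv.Perm (Fin m) :=
  (List.ofFn (fun i => trV (w i))).prod

/-- the closure of the virtual braid word is a knot: its permutation has a single cycle -/
def IsKnotV {m n : ℕ} (w : Fin n → VLetter m) : Prop := ∀ i j : Fin m, (permV w).SameCycle i j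

end Pool.Agent.W705.JV
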