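import Pool.Agent.W705.JV.Rep

set_option autoImplicit false

namespace Pool.Agent.W705.JV

open Finset LaurentPolynomial Pool.Agent.H891R2.Jones Pool.Agent.W639.RB Pool.Agent.W705.JR

variable {m : ℕ}

section words

variable {X ι : Type*} (σ : ι → Equiv.Perm X) (inv : ι → ι) (hinv : ∀ l, σ (inv l) = (σ l)⁻¹)

include hinv in
/-- words of even length move `f` by little -/
theorem even_words (f : L2 X) (δ : ℝ) (hδ : ∀ l l', ‖sh (σ l) f - sh (σ l') f‖ ≤ δ) (k : ℕ) : 
    ∀ w : List ι, w.length = 2 * k → ‖f - sh ((w.map σ).prod) f‖ ≤ k * δ := by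
  induction k with
  | zero =>
    intro w hw
    have : w = [] := List.eq_nil_of_length_eq_zero (by simpa using hw)
    subst this
    simp [sh_one]
  | succ k ih =>
    intro w hw
    match w, hw with
    | [], h => simp at h
    | [a], h => simp at h; omega
    | a :: b :: w, h =>
      have hw' : w.length = 2 * k := by simp at h; omega
      have h1 := ih w hw'
      have e0 : ((a :: b :: w).map σ).prod = (σ a * σ b) * (w.map σ).prod := by
        simp only [List.map_cons, List.prod_cons, mul_assoc]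
      set g := (w.map σ).prod with hg
      have e : f - sh ((σ a * σ b) * g) f = (f - sh (σ a * σ b) f) + sh (σ a * σ b) (f - sh g f) := by
        rw [sh_mul (σ a * σ b), sh_sub]; abel
      have e2 : ‖f - sh (σ a * σ b) f‖ = ‖sh (σ (inv a)) f - sh (σ b) f‖ := by
        rw [← sh_norm ((σ a)⁻¹) (f - _), sh_sub, ← sh_mul, inv_mul_cancel_left, hinv]
      rw [e0, e]
      calc _ ≤ ‖f - sh (σ a * σ b) f‖ + ‖sh (σ a * σ b) (f - sh g f)‖ := norm_add_le _ _
        _ ≤ δ + k * δ := by
          rw [sh_norm, e2]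
          exact add_le_add (hδ _ _) h1
        _ = _ := by push_cast; ring

include hinv in
theorem inv_word (w : List ι) : (((w.map inv).reverse).map σ).prod = ((w.map σ).prod)⁻¹ := by
  rw [List.prod_inv_reverse, List.map_reverse, List.map_map, List.map_map]
  congr 3
  funext l
  exact hinv l

end words

theorem sv_reach (hm : 2 ≤ m) (π : Equiv.Perm (Fin m)) : 
    ∃ w : List (Fin (m - 1)), (w.map sv).prod = π := by
  obtain ⟨l, w, hw⟩ := reach hm π
  refine ⟨List.ofFn (fun i => (w i).2), ?_⟩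
  rw [← hw, perm_eq, List.map_ofFn, List.map_ofFn]
  rfl

theorem word_reach (hm : 2 ≤ m) (π : Equiv.Perm (Fin m)) : 
    ∃ w : List (VLetter m), (w.map (fun l => act (gv l))).prod = act (PV π) := by
  obtain ⟨w, hw⟩ := sv_reach hm π
  refine ⟨w.map Sum.inr, ?_⟩
  rw [← hw, map_list_prod, List.map_map, ← actH_apply, map_list_prod, List.map_map, List.map_map]
  rfl

theorem act_invV (l : VLetter m) : act (gv (invV l)) = (act (gv l))⁻¹ := by
  rw [gv_invV]; exact act_symm (gv l)

theorem gapV (hm : 3 ≤ m) (p : VLetter m → ℝ) (hp : ∀ l, 0 < p l) (hs : ∑ l, p l = 1) : 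
    ∃ ρ : ℝ, 0 ≤ ρ ∧ ρ < 1 ∧ ∀ f : L2 (Submodule ℂ (VV m)), 
      (∀ W, W ∉ {W : Submodule ℂ (VV m) | ¬ StabV W} → f W = 0) → 
        ‖avg p (fun l => act (gv l)) f‖ ≤ ρ * ‖f‖ := by
  classical
  have h1 : ∀ i : Fin (m - 2), ∃ c : ℝ, 0 < c ∧ ∀ f : L2 (Submodule ℂ (VV m)), 
    (∀ W, W ∉ good (i : ℕ) → f W = 0) → 
      c * ‖f‖ ≤ ‖f - sh (act (uu (i : ℕ) (by omega))) f‖ ∨ 
      c * ‖f‖ ≤ ‖f - sh (act (vv (i : ℕ) (by omega))) f‖ := fun i => gap_i i (by omega)
  choose c hc0 hc using h1
  have : Nonempty (Fin (m - 2)) := ⟨⟨0, by omega⟩⟩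
  obtain ⟨i₀, hi₀⟩ := Finite.exists_min c
  have : Nonempty (VLetter m) := ⟨.inl (true, ⟨0, by omega⟩)⟩
  obtain ⟨l₀, hl₀⟩ := Finite.exists_min p
  set ε := p l₀ with hε
  have hε0 : 0 < ε := hp l₀
  choose vw hvw using word_reach (m := m) (by omega)
  obtain ⟨π₀, hπ₀⟩ := Finite.exists_max (fun π => (vw π).length)
  set K : ℝ := (vw π₀).length + 1 with hK
  have hK0 : 0 < K := by positivity
  set M : ℝ := (Fintype.card (Equiv.Perm (Fin m) × Fin (m - 2)) : ℝ) with hM
  have hM1 : 1 ≤ M := by
    have : 0 < Fintype.card (Equiv.Perm (Fin m) × Fin (m - 2)) := Fintype.card_pos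
    rw [hM]; exact_mod_cast this
  have hM0 : 0 < M := by linarith
  set c' : ℝ := c i₀ / (2 * M * K) with hc'
  have hc'0 : 0 < c' := div_pos (hc0 _) (by positivity)
  refine ⟨√(max (1 - ε ^ 2 * c' ^ 2) 0), Real.sqrt_nonneg _, ?_, fun f hf => ?_⟩
  · rw [Real.sqrt_lt' one_pos, one_pow]
    refine max_lt ?_ one_pos
    have : 0 < ε ^ 2 * c' ^ 2 := by positivity
    linarith
  · have h4 : ∃ l l' : VLetter m, l ≠ l' ∧ c' * ‖f‖ ≤ ‖sh (act (gv l)) f - sh (act (gv l')) f‖ := by
      by_contra hcon
      push Not at hcon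
      have hfpos : 0 < ‖f‖ := by
        rcases (norm_nonneg f).eq_or_lt with h0 | h0
        · exfalso
          have h2 := hcon (.inl (true, ⟨0, by omega⟩)) (.inl (false, ⟨0, by omega⟩)) (by simp)
          rw [← h0, mul_zero] at h2
          exact absurd h2 (not_lt.2 (norm_nonneg _))
        · exact h0
      have hδ : ∀ l l' : VLetter m, ‖sh (act (gv l)) f - sh (act (gv l')) f‖ ≤ c' * ‖f‖ := by
        intro l l'
        by_cases h : l = l'
        · rw [h, sub_self, norm_zero]; positivity
        · exact (hcon l l' h).le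
      have hword : ∀ (π : Equiv.Perm (Fin m)) (a b : VLetter m), 
          ‖f - sh (act (PV π) * (act (gv a) * act (gv b)) * (act (PV π))⁻¹) f‖ ≤ K * (c' * ‖f‖) := by
        intro π a b
        have e := even_words (fun l => act (gv l)) invV act_invV f (c' * ‖f‖) hδ ((vw π).length + 1) 
          (vw π ++ ([a, b] ++ ((vw π).map invV).reverse)) (by
            simp only [List.length_append, List.length_cons, List.length_nil, List.length_reverse, 
              List.length_map]
            ring)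
        have e2 : ((vw π ++ ([a, b] ++ ((vw π).map invV).reverse)).map (fun l => act (gv l))).prod = 
            act (PV π) * (act (gv a) * act (gv b)) * (act (PV π))⁻¹ := by
          rw [List.map_append, List.map_append, List.prod_append, List.prod_append, 
            inv_word (fun l => act (gv l)) invV act_invV, hvw]
          simp only [List.map_cons, List.map_nil, List.prod_cons, List.prod_nil, mul_one, mul_assoc]
        rw [e2] at e
        refine e.trans ?_
        have h5 : ((vw π).length : ℝ) ≤ (vw π₀).length := by exact_mod_cast hπ₀ π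
        refine mul_le_mul_of_nonneg_right ?_ (by positivity)
        rw [hK]; push_cast; linarith
      -- the covering
      set S : Equiv.Perm (Fin m) × Fin (m - 2) → Set (Submodule ℂ (VV m)) := 
        fun x => (act (PV x.1)) '' good (x.2 : ℕ) with hS
      have hcov : ∀ W, f W ≠ 0 → ∃ x, W ∈ S x := by
        intro W hW
        by_contra hcon2
        push Not at hcon2
        apply hW
        apply hf
        intro hN
        apply hN
        intro π j _ hjm v hv
        have hmem : ∀ i : Fin (m - 2), Stab {(i : ℕ), (i : ℕ) + 1} ((act (PV π))⁻¹ W) := by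
          intro i
          by_contra h2
          exact hcon2 (π, i) ⟨(act (PV π))⁻¹ W, h2, by simp⟩
        by_cases hj : j + 2 < m
        · exact hmem ⟨j, by omega⟩ j (by simp) hjm v hv
        · exact hmem ⟨j - 1, by omega⟩ j (by
            have : j = (j - 1) + 1 := by omega
            right; exact this) hjm v hv
      have h2 := norm_le_sum S f hcov
      obtain ⟨x, hx⟩ : ∃ x, ‖f‖ ^ 2 ≤ M * ‖res (S x) f‖ ^ 2 := by
        by_contra hcon2
        push Not at hcon2
        have h3 : M * ∑ x, ‖res (S x) f‖ ^ 2 < ∑ x : Equiv.Perm (Fin m) × Fin (m - 2), ‖f‖ ^ 2 := by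
          rw [Finset.mul_sum]
          exact Finset.sum_lt_sum_of_nonempty Finset.univ_nonempty (fun i _ => hcon2 i)
        rw [Finset.sum_const, Finset.card_univ, nsmul_eq_mul, ← hM] at h3
        have h6 := mul_le_mul_of_nonneg_left h2 hM0.le
        linarith
      obtain ⟨π, i⟩ := x
      set f1 := sh ((act (PV π))⁻¹) f with hf1
      set f2 := res (good (m := m) (i : ℕ)) f1 with hf2
      have h3 : ‖res (S (π, i)) f‖ = ‖f2‖ := by
        have e1 : f = sh (act (PV π)) f1 := by rw [hf1, ← sh_mul, mul_inv_cancel, sh_one]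
        conv_lhs => rw [e1]
        rw [hS]
        dsimp only
        rw [res_sh, sh_norm]
      rw [h3] at hx
      have h5 : ‖f‖ ≤ M * ‖f2‖ := by
        refine abs_le_of_sq_le_sq' ?_ (by positivity) |>.2
        rw [mul_pow]
        have := sq_nonneg ‖f2‖
        nlinarith [mul_le_mul_of_nonneg_right hM1 this, mul_nonneg hM0.le this]
      have hf2s : ∀ W, W ∉ good (m := m) (i : ℕ) → f2 W = 0 := by
        intro W hW
        rw [hf2, res_apply, if_neg hW]
      have hmove : ∀ u : Equiv.Perm (Submodule ℂ (VV m)), (∀ W, u W ∈ good (m := m) (i : ℕ) ↔ W ∈ good (m := m) (i : ℕ)) → 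
          c i * ‖f2‖ ≤ ‖f2 - sh u f2‖ → 
          c i * ‖f2‖ ≤ ‖f - sh (act (PV π) * u * (act (PV π))⁻¹) f‖ := by
        intro u hu h
        refine h.trans ((res_inv u _ hu f1).trans (le_of_eq ?_))
        rw [← sh_norm (act (PV π)) (f1 - _), sh_sub, hf1, ← sh_mul, ← sh_mul, ← sh_mul, mul_inv_cancel, 
          sh_one, mul_assoc]
      have h7 : c i₀ * ‖f‖ ≤ M * (c i * ‖f2‖) := by
        calc c i₀ * ‖f‖ ≤ c i * (M * ‖f2‖) := mul_le_mul (hi₀ i) h5 (norm_nonneg _) (hc0 i).le
          _ = _ := by ring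
      have h8 : ∀ a b : VLetter m, ¬ (c i * ‖f2‖ ≤ 
          ‖f - sh (act (PV π) * (act (gv a) * act (gv b)) * (act (PV π))⁻¹) f‖) := by
        intro a b h
        have e1 := h.trans (hword π a b)
        have e2 : c i₀ * ‖f‖ ≤ M * (K * (c' * ‖f‖)) := h7.trans (mul_le_mul_of_nonneg_left e1 hM0.le)
        have e3 : M * (K * (c' * ‖f‖)) = c i₀ * ‖f‖ / 2 := by
          rw [hc']; field_simp
        rw [e3] at e2
        have := mul_pos (hc0 i₀) hfpos
        linarith
      rcases hc i f2 hf2s with h6 | h6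
      · have e1 := hmove _ (good_u (i : ℕ) (by omega)) h6
        have e2 : act (uu (m := m) (i : ℕ) (by omega)) = 
            act (gv (.inl (lt ((i : ℕ)+1) (by omega) true))) * act (gv (.inl (lt (i : ℕ) (by omega) false))) := by
          unfold uu
          rw [← actH_apply, map_mul]; rfl
        rw [e2] at e1
        exact h8 _ _ e1
      · have e1 := hmove _ (good_v (i : ℕ) (by omega)) h6
        have e2 : act (vv (m := m) (i : ℕ) (by omega)) = 
            act (gv (.inl (lt (i : ℕ) (by omega) false))) * act (gv (.inl (lt ((i : ℕ)+1) (by omega) true))) := by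
          unfold vv
          rw [← actH_apply, map_mul]; rfl
        rw [e2] at e1
        exact h8 _ _ e1
    obtain ⟨l, l', hne, h5⟩ := h4
    have h6 := avg_gap p (fun l => (hp l).le) hs (fun l => act (gv l)) f l l' ε c' hε0.le (hl₀ l) 
      (hl₀ l') hc'0.le hne h5
    refine abs_le_of_sq_le_sq' ?_ (by positivity) |>.2
    rw [mul_pow, Real.sq_sqrt (le_max_right _ _)]
    exact h6.trans (mul_le_mul_of_nonneg_right (le_max_left _ _) (sq_nonneg _))

theorem mainV (hm : 3 ≤ m) (p : VLetter m → ℝ) (hp : ∀ l, 0 < p l) (hs : ∑ l, p l = 1) : 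
    ∃ C r : ℝ, 0 ≤ C ∧ 0 ≤ r ∧ r < 1 ∧ ∀ (O : Outer m) (z : ℂ) (k : ℕ), probV p O k z ≤ C * r ^ k := by
  obtain ⟨ρ, hρ0, hρ1, hρ⟩ := gapV hm p hp hs
  obtain ⟨C, r, hC, hr0, hr1, h⟩ := hit_decay (g := gv) (ξ := xi m) (fun l => (hp l).le) hs 
    {W : Submodule ℂ (VV m) | ¬ StabV W} 
    (fun W l hW h1 => hW ((StabV_act_iff l W).2 h1)) 
    (fun h1 => h1 (by
      rw [StabV_iff]
      intro π j _ v hv
      rw [Submodule.mem_bot] at hv
      rw [hv, Submodule.mem_bot, EP_eq]
      exact Prod.ext (map_zero _) rfl)) ρ hρ0 hρ1 hρ (Module.finrank ℂ (VV m))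
  refine ⟨C, r, hC, hr0, hr1, fun O z k => ?_⟩
  rw [← hit_kerV (by omega) p z k O]
  exact h (Wc m) (fun W hW l => Wc_actV W hW l) (fun W hW W' h' => Wc_le W hW W' h') 
    (fun W hW hN k => hit_stabV (by omega) p k W hW (by
      by_contra h1
      exact hN h1)) _ ⟨O, z, le_rfl⟩ (Submodule.finrank_le _) k

end Pool.Agent.W705.JV
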