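import Pool.Agent.W705.JV.Defs
import Pool.Agent.W705.JR.Main

set_option autoImplicit false

namespace Pool.Agent.W705.JV

open Finset LaurentPolynomial Pool.Agent.H891R2.Jones Pool.Agent.W639.RB Pool.Agent.W705.JR

variable {m : ℕ}

/-- permutation of the strands on `V1 × V2` -/
noncomputable def pvf (π : Equiv.Perm (Fin m)) (v : VV m) : VV m :=
  (fun x => v.1 (x ∘ π), fun U => v.2 (U ∘ π))

theorem pvf_mul (π ρ : Equiv.Perm (Fin m)) (v : VV m) : pvf (π * ρ) v = pvf π (pvf ρ v) := rfl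

theorem pvf_one (v : VV m) : pvf 1 v = v := rfl

noncomputable def PV : Equiv.Perm (Fin m) →* (VV m ≃ₗ[ℂ] VV m) where
  toFun π :=
    { toFun := pvf π
      invFun := pvf π⁻¹
      map_add' := fun v w => rfl
      map_smul' := fun c v => rfl
      left_inv := fun v => by rw [← pvf_mul, inv_mul_cancel, pvf_one]
      right_inv := fun v => by rw [← pvf_mul, mul_inv_cancel, pvf_one] }
  map_one' := rfl
  map_mul' π ρ := rfl

theorem PV_apply (π : Equiv.Perm (Fin m)) (v : VV m) : PV π v = pvf π v := rfl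

/-- the transposition of a virtual letter -/
def sv (i : Fin (m - 1)) : Equiv.Perm (Fin m) := 
  Equiv.swap (⟨i, by omega⟩ : Fin m) ⟨i + 1, by omega⟩

/-- the letters -/
noncomputable def gv : VLetter m → (VV m ≃ₗ[ℂ] VV m)
  | .inl x => gg x
  | .inr i => PV (sv i)

def invV : VLetter m → VLetter m
  | .inl x => .inl (inv' x)
  | .inr i => .inr i

theorem gv_invV (x : VLetter m) : gv (invV x) = (gv x)⁻¹ := by
  rcases x with x | i
  · exact gg_inv' x
  · show PV (sv i) = (PV (sv i))⁻¹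
    rw [← map_inv]
    congr 1

theorem fn_virt (O : Outer m) (z : ℂ) (i : Fin (m - 1)) (v : VV m) : 
    fn (virt O i) z v = fn O z (PV (sv i) v) := rfl

theorem fn_pushV (O : Outer m) (z : ℂ) (x : VLetter m) (v : VV m) : 
    fn (pushV O x) z v = fn O z (gv x v) := by
  rcases x with x | i
  · exact fn_push O z x v
  · exact fn_virt O z i v

theorem act_kerV (O : Outer m) (z : ℂ) (x : VLetter m) : 
    (act (gv x))⁻¹ (LinearMap.ker (fn O z)) = LinearMap.ker (fn (pushV O x) z) := by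
  apply Submodule.ext
  intro v
  rw [mem_act_inv, LinearMap.mem_ker, LinearMap.mem_ker, fn_pushV]

theorem drawV_cons {k : ℕ} (O : Outer m) (x : VLetter m) (w : Fin k → VLetter m) :
    drawV O (List.ofFn (Fin.cons x w : Fin (k+1) → VLetter m)) = drawV (pushV O x) (List.ofFn w) := by
  rw [List.ofFn_succ]
  simp only [Fin.cons_zero, Fin.cons_succ]
  rfl

open Classical in
/-- the probability of the value `z` -/
noncomputable def probV (p : VLetter m → ℝ) (O : Outer m) (k : ℕ) (z : ℂ) : ℝ :=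
  ∑ w : Fin k → VLetter m, if ev 3 le_rfl (drawV O (List.ofFn w)).close.fPoly = z then ∏ j, p (w j) else 0

theorem hit_kerV (hm : 0 < m) (p : VLetter m → ℝ) (z : ℂ) : ∀ (k : ℕ) (O : Outer m), 
    hit p gv (xi m) k (LinearMap.ker (fn O z)) = probV p O k z
  | 0, O => by
    classical
    unfold hit probV
    rw [Fintype.sum_unique]
    have h : (drawV O (List.ofFn (default : Fin 0 → VLetter m))) = O := rfl
    rw [h]
    simp only [xi_mem_iff hm, Finset.univ_eq_empty, Finset.prod_empty]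
  | (k+1), O => by
    classical
    have e1 : hit p gv (xi m) (k+1) (LinearMap.ker (fn O z)) = 
        ∑ x, p x * hit p gv (xi m) k ((act (gv x))⁻¹ (LinearMap.ker (fn O z))) := rfl
    rw [e1]
    set F : (Fin (k+1) → VLetter m) → ℝ := fun w => 
        if ev 3 le_rfl (drawV O (List.ofFn w)).close.fPoly = z then ∏ j, p (w j) else (0:ℝ) with hF
    have e3 := (Fin.consEquiv (fun _ : Fin (k+1) => VLetter m)).sum_comp F
    have e4 : probV p O (k+1) z = ∑ w : Fin (k+1) → VLetter m, F w := rfl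
    have e5 := Fintype.sum_prod_type (fun i : VLetter m × (Fin k → VLetter m) => 
      F ((Fin.consEquiv (fun _ : Fin (k+1) => VLetter m)) i))
    rw [e4, ← e3]
    refine Eq.trans ?_ e5.symm
    refine Finset.sum_congr rfl fun x _ => ?_
    rw [act_kerV, hit_kerV hm p z k, probV, Finset.mul_sum]
    refine Finset.sum_congr rfl fun w _ => ?_
    have h2 : (Fin.consEquiv (fun _ : Fin (k+1) => VLetter m)) (x, w) = 
      (Fin.cons x w : Fin (k+1) → VLetter m) := rfl
    rw [h2, hF]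
    dsimp only
    rw [drawV_cons, Fin.prod_univ_succ]
    simp only [Fin.cons_zero, Fin.cons_succ]
    split_ifs <;> ring

/-! ### stability -/

/-- all permuted versions are stable under the Temperley-Lieb algebra -/
def StabV (W : Submodule ℂ (VV m)) : Prop := 
  ∀ π : Equiv.Perm (Fin m), Stab Set.univ ((act (PV π))⁻¹ W)

/-- `conj_id` for an arbitrary element -/
theorem conj_id' {K R : Type*} [Field K] [Ring R] [Algebra K R] {M : ℕ} {A d : K} {e : ℕ → R}
    (hA : A ≠ 0) (hd : d = -A^2 - A⁻¹^2) (h : IsTL M d e) (i : ℕ) (a : R) (hi : i + 1 < M) :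
    sg A e i * a = (a + A ^ 2 • (a * e i) + (A⁻¹) ^ 2 • (e i * a) + e i * a * e i) * sg A e i := by
  have h1 := sg_inv' hA hd h i hi
  calc sg A e i * a = sg A e i * a * (sg A⁻¹ e i * sg A e i) := by rw [h1, mul_one]
    _ = (sg A e i * a * sg A⁻¹ e i) * sg A e i := by noncomm_ring
    _ = _ := by
      congr 1
      simp only [sg, add_mul, mul_add, smul_mul_assoc, mul_smul_comm, one_mul, mul_one, smul_smul,
        smul_add, inv_inv]
      match_scalars <;> field_simp

/-- the conjugate of `EE2 j` -/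
noncomputable def EP (π : Equiv.Perm (Fin m)) (j : ℕ) (v : VV m) : VV m := PV π (EE2 j (PV π⁻¹ v))

/-- the first component of the conjugate, an endomorphism of `V1` -/
noncomputable def ep (π : Equiv.Perm (Fin m)) (j : ℕ) : Module.End ℂ (V1 m) where
  toFun f := fun x => (e m j (fun y => f (y ∘ (π⁻¹ : Equiv.Perm (Fin m))))) (x ∘ π)
  map_add' f g := by
    funext x
    have : (fun y : Fin m → Fin 3 => (f + g) (y ∘ (π⁻¹ : Equiv.Perm (Fin m)))) = 
      (fun y => f (y ∘ (π⁻¹ : Equiv.Perm (Fin m)))) + (fun y => g (y ∘ (π⁻¹ : Equiv.Perm (Fin m)))) := rfl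
    rw [this, map_add]; rfl
  map_smul' c f := by
    funext x
    have : (fun y : Fin m → Fin 3 => (c • f) (y ∘ (π⁻¹ : Equiv.Perm (Fin m)))) = 
      c • (fun y => f (y ∘ (π⁻¹ : Equiv.Perm (Fin m)))) := rfl
    rw [this, map_smul]; rfl

theorem EP_eq (π : Equiv.Perm (Fin m)) (j : ℕ) (v : VV m) : EP π j v = (ep π j v.1, 0) := rfl

theorem gg_EP (x : Letter m) (π : Equiv.Perm (Fin m)) (j : ℕ) (v : VV m) : 
    gg x (EP π j v) = EP π j (gg x v) + (Bb x.1) ^ 2 • EP π j (EE2 x.2 (gg x v)) + 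
      ((Bb x.1)⁻¹) ^ 2 • EE2 x.2 (EP π j (gg x v)) + EE2 x.2 (EP π j (EE2 x.2 (gg x v))) := by
  have h := conj_id' (Bb_ne x.1) (Bb_d x.1) (e_TL m) x.2 (ep π j) (idx_lt x)
  have h2 := LinearMap.congr_fun h v.1
  refine Prod.ext ?_ ?_
  · exact h2
  · show m2 x 0 = 0 + (Bb x.1) ^ 2 • (0 : V2 m) + ((Bb x.1)⁻¹) ^ 2 • (0 : V2 m) + 0
    simp

/-- `StabV` in terms of the conjugates -/
theorem StabV_iff (W : Submodule ℂ (VV m)) : StabV W ↔ 
    ∀ (π : Equiv.Perm (Fin m)) (j : ℕ), j + 1 < m → ∀ v ∈ W, EP π j v ∈ W := by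
  constructor
  · intro h π j hj v hv
    have h1 := h π j (Set.mem_univ j) hj (PV π⁻¹ v) (by
      rw [mem_act_inv, ← LinearEquiv.mul_apply, ← map_mul, mul_inv_cancel, map_one]; exact hv)
    exact h1
  · intro h π j _ hj v hv
    rw [mem_act_inv] at hv ⊢
    have h1 := h π j hj _ hv
    unfold EP at h1
    rwa [← LinearEquiv.mul_apply (PV π⁻¹), ← map_mul, inv_mul_cancel, map_one] at h1

theorem StabV_one {W : Submodule ℂ (VV m)} (h : StabV W) (j : ℕ) (hj : j + 1 < m) (v : VV m) 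
    (hv : v ∈ W) : EE2 j v ∈ W := 
  (StabV_iff W).1 h 1 j hj v hv

theorem StabV_act (x : VLetter m) (W : Submodule ℂ (VV m)) (h : StabV W) : 
    StabV ((act (gv x))⁻¹ W) := by
  rcases x with x | i
  · have h' := (StabV_iff W).1 h
    rw [StabV_iff]
    intro π j hj v hv
    rw [mem_act_inv] at hv ⊢
    show gg x (EP π j v) ∈ W
    rw [gg_EP]
    have hx' := idx_lt x
    have hv' : gg x v ∈ W := hv
    have h1 := h' π j hj _ hv'
    have h2 := StabV_one h _ hx' _ hv'
    exact W.add_mem (W.add_mem (W.add_mem h1 (W.smul_mem _ (h' π j hj _ h2))) 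
      (W.smul_mem _ (StabV_one h _ hx' _ h1))) (StabV_one h _ hx' _ (h' π j hj _ h2))
  · intro π
    have h1 := h (sv i * π)
    have h2 : (act (PV (sv i * π)))⁻¹ W = (act (PV π))⁻¹ ((act (gv (.inr i)))⁻¹ W) := by
      apply Submodule.ext
      intro v
      rw [mem_act_inv, mem_act_inv, mem_act_inv, map_mul]
      rfl
    rwa [h2] at h1

theorem StabV_act_iff (x : VLetter m) (W : Submodule ℂ (VV m)) :
    StabV ((act (gv x))⁻¹ W) ↔ StabV W := by
  refine ⟨fun h => ?_, StabV_act x W⟩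
  have h1 := StabV_act (invV x) _ h
  have h2 : (act (gv (invV x)))⁻¹ ((act (gv x))⁻¹ W) = W := by
    rw [gv_invV]
    have : act ((gv x)⁻¹) = (act (gv x))⁻¹ := act_symm (gv x)
    rw [this, inv_inv]
    exact Equiv.apply_symm_apply _ _
  rwa [h2] at h1

theorem Wc_actV (W : Submodule ℂ (VV m)) (hW : W ∈ Wc m) (x : VLetter m) : (act (gv x))⁻¹ W ∈ Wc m := by
  obtain ⟨O, z, h⟩ := hW
  refine ⟨pushV O x, z, ?_⟩
  rw [← act_kerV]
  exact fun v hv => h hv

theorem hit_stabV (hm : 1 < m) (p : VLetter m → ℝ) : ∀ (k : ℕ) (W : Submodule ℂ (VV m)), W ∈ Wc m → 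
    StabV W → hit p gv (xi m) k W = 0
  | 0, W, hW, hS => by
    unfold hit
    rw [if_neg]
    intro hxi
    obtain ⟨O, z, h⟩ := hW
    have h1 := h (StabV_one hS 0 (by omega) _ hxi)
    rw [LinearMap.mem_ker, fn_apply] at h1
    have h2 : (EE2 0 (xi m)).2 O.up = 0 := rfl
    rw [h2, mul_zero, sub_zero] at h1
    exact Zg_e_ne hm O h1
  | (k+1), W, hW, hS => by
    have e1 : hit p gv (xi m) (k+1) W = 
        ∑ x, p x * hit p gv (xi m) k ((act (gv x))⁻¹ W) := rfl
    rw [e1]
    refine Finset.sum_eq_zero fun x _ => ?_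
    rw [hit_stabV hm p k _ (Wc_actV W hW x) ((StabV_act_iff x W).2 hS), mul_zero]

end Pool.Agent.W705.JV
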